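import Pool.Agent.KTB.StmtsKA

/-!
# Squad KTB, row INS: the new cover
-/

set_option autoImplicit false

namespace Pool.Agent.KTB.H4

open Pool.Agent.KTB Finset
open scoped Classical

theorem finrank_le_of {ι : Type} [Fintype ι] (W W' : Submodule ℚ (ι → ℚ))
    (h : ∀ ρ ∈ W, ρ ∈ W') : Module.finrank ℚ W ≤ Module.finrank ℚ W' :=
  Submodule.finrank_mono h

theorem finrank_lt_of {ι : Type} [Fintype ι] (W W' : Submodule ℚ (ι → ℚ))
    (h : ∀ ρ ∈ W, ρ ∈ W') (h2 : ∃ ρ ∈ W', ρ ∉ W) :
    Module.finrank ℚ W + 1 ≤ Module.finrank ℚ W' := by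
  obtain ⟨ρ, h1, h3⟩ := h2
  have : W < W' := lt_of_le_of_ne h (fun he => h3 (he ▸ h1))
  exact Submodule.finrank_lt_finrank_of_lt this

theorem finrank_le_succ {ι : Type} [Fintype ι] (W W' : Submodule ℚ (ι → ℚ))
    (s : (ι → ℚ) →ₗ[ℚ] ℚ)
    (h : ∀ ρ ∈ W, s ρ = 0 → ρ ∈ W') : Module.finrank ℚ W ≤ Module.finrank ℚ W' + 1 := by
  have h1 := LinearMap.finrank_range_add_finrank_ker (s.domRestrict W)
  have h2 : Module.finrank ℚ (LinearMap.range (s.domRestrict W)) ≤ 1 := by
    have := Submodule.finrank_le (LinearMap.range (s.domRestrict W))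
    simpa using this
  have h3 : Module.finrank ℚ (LinearMap.ker (s.domRestrict W)) ≤ Module.finrank ℚ W' := by
    let g : (LinearMap.ker (s.domRestrict W)) →ₗ[ℚ] W' :=
      LinearMap.codRestrict W' (W.subtype.comp (LinearMap.ker (s.domRestrict W)).subtype)
        (fun x => h _ x.1.2 (by
          exact LinearMap.mem_ker.1 x.2))
    apply LinearMap.finrank_le_finrank_of_injective (f := g)
    intro x y hxy
    have : (g x : ι → ℚ) = (g y : ι → ℚ) := by rw [hxy]
    apply Subtype.ext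
    apply Subtype.ext
    exact this
  omega

theorem ins (hIDN : IdnStmt) (hRAY : RayStmt) : InsStmt := by
  intro ι T _ D S R K M μ r k hNH hrR hkK hkr honly hPM
  obtain ⟨p, f, hVd⟩ := hNH.vd
  obtain ⟨hne, hray, hLL⟩ := hVd
  have hRS : R ⊆ S := hray.1
  obtain ⟨-, ⟨s, hs1, -, ⟨ρ1, hρ1, hsρ1⟩, hs4⟩, -, -, hnul, -⟩ := hRAY ι T D S R p f hray hne
  have hp : ∀ r ∈ R, 0 < p r := fun r hr => (hray.2.1 r hr).1
  have hipc := hNH.ipc
  have hrS : r ∈ S := hRS hrR
  -- inclusion
  have hRR : ∀ ρ ∈ D.R (S \ R), ρ ∈ D.R S := fun ρ hρ => ⟨hρ.1, fun a ha => hρ.2 a (by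
    simp [ha])⟩
  have hρr : ρ1 r ≠ 0 := by
    rw [hs1 ρ1 hρ1 r hrR]
    exact mul_ne_zero (hp r hrR).ne' hsρ1
  have hRsg : ∀ y ∈ R, y ∈ D.sg S r := by
    intro y hy
    refine Finset.mem_filter.2 ⟨hRS hy, p y / p r, div_ne_zero (hp y hy).ne' (hp r hrR).ne', ?_⟩
    intro ρ hρ
    rw [hs1 ρ hρ y hy, hs1 ρ hρ r hrR]
    field_simp [(hp r hrR).ne']
  have hsgN : ∀ y ∈ D.sg S r, y ∈ D.N S := by
    intro y hy
    obtain ⟨hyS, c, hc, hcc⟩ := Finset.mem_filter.1 hy
    exact Finset.mem_filter.2 ⟨hyS, ρ1, hρ1, by rw [hcc ρ1 hρ1]; exact mul_ne_zero hc hρr⟩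
  have hNsub : ∀ y ∈ D.N (S \ R), y ∈ D.N S := by
    intro y hy
    obtain ⟨hyS, ρ, hρ, hρy⟩ := Finset.mem_filter.1 hy
    exact Finset.mem_filter.2 ⟨(Finset.mem_sdiff.1 hyS).1, ρ, hRR ρ hρ, hρy⟩
  have hNsg : ∀ y ∈ D.N (S \ R), y ∉ D.sg S r := by
    intro y hy hy2
    obtain ⟨hyS, ρ, hρ, hρy⟩ := Finset.mem_filter.1 hy
    obtain ⟨-, c, hc, hcc⟩ := Finset.mem_filter.1 hy2
    apply hρy
    rw [hcc ρ (hRR ρ hρ), hρ.2 r (by simp [hrR]), mul_zero]
  have hNsplit : ∀ y ∈ D.N S, y ∈ D.N (S \ R) ∨ y ∈ D.sg S r := by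
    intro y hy
    by_cases hyN : y ∈ D.N (S \ R)
    · exact Or.inl hyN
    right
    by_cases hyR : y ∈ R
    · exact hRsg y hyR
    obtain ⟨hyS, ρ, hρ, hρy⟩ := Finset.mem_filter.1 hy
    have hyz : ∀ σ ∈ D.R (S \ R), σ y = 0 := by
      intro σ hσ
      by_contra hne
      exact hyN (Finset.mem_filter.2 ⟨Finset.mem_sdiff.2 ⟨hyS, hyR⟩, σ, hσ, hne⟩)
    have hform : ∀ σ ∈ D.R S, σ y = s σ / s ρ1 * ρ1 y := by
      intro σ hσ
      have hmem : σ - (s σ / s ρ1) • ρ1 ∈ D.R S :=
        (D.R S).sub_mem hσ ((D.R S).smul_mem _ hρ1)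
      have hz : s (σ - (s σ / s ρ1) • ρ1) = 0 := by
        simp only [map_sub, map_smul, smul_eq_mul]
        field_simp
        ring
      have := hyz _ ((hs4 _ hmem).2 hz)
      simp only [Pi.sub_apply, Pi.smul_apply, smul_eq_mul] at this
      linarith
    have hρ1y : ρ1 y ≠ 0 := by
      intro h0
      apply hρy
      rw [hform ρ hρ, h0, mul_zero]
    refine Finset.mem_filter.2 ⟨hyS, ρ1 y / (s ρ1 * p r),
      div_ne_zero hρ1y (mul_ne_zero hsρ1 (hp r hrR).ne'), ?_⟩
    intro σ hσ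
    rw [hform σ hσ, hs1 σ hσ r hrR]
    have hpr := (hp r hrR).ne'
    field_simp
  -- coordinates of M
  have hMz : ∀ j ∈ M, ∀ a ∈ S, a ∉ (D.sg S r).erase r → D.x j a = 0 := by
    intro j hj a haS ha
    obtain ⟨y, hy, y', hy', hcl⟩ := hPM.1 j hj
    exact hcl.2.2.2.2.2 a haS (fun h => ha (h ▸ hy)) (fun h => ha (h ▸ hy'))
  have hMone : ∀ j ∈ M, ∀ a ∈ S, D.x j a ≠ 0 → D.x j a = 1 := by
    intro j hj a haS ha
    obtain ⟨y, hy, y', hy', hcl⟩ := hPM.1 j hj
    by_cases h1 : a = y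
    · rw [h1]; exact hcl.2.2.2.1
    by_cases h2 : a = y'
    · rw [h2]; exact hcl.2.2.2.2.1
    exact absurd (hcl.2.2.2.2.2 a haS h1 h2) ha
  have hMcard : ∀ j ∈ M, (D.E S j).card = 2 := by
    intro j hj
    obtain ⟨y, hy, y', hy', hcl⟩ := hPM.1 j hj
    have : D.E S j = {y, y'} := by
      ext a
      simp only [Dat.E, Finset.mem_filter, Finset.mem_insert, Finset.mem_singleton]
      constructor
      · rintro ⟨haS, ha⟩
        by_contra hne
        push Not at hne
        exact ha (hcl.2.2.2.2.2 a haS hne.1 hne.2)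
      · rintro (h | h)
        · rw [h]; exact ⟨hcl.1, by rw [hcl.2.2.2.1]; norm_num⟩
        · rw [h]; exact ⟨hcl.2.1, by rw [hcl.2.2.2.2.1]; norm_num⟩
    rw [this, Finset.card_pair hcl.2.2.1]
  have hrerase : r ∉ (D.sg S r).erase r := by simp
  have hdisj : Disjoint K M := by
    rw [Finset.disjoint_left]
    intro j hjK hjM
    have h2 := hipc.two j hjK
    have hpos : 0 < (D.E (S \ R) j).card := by omega
    obtain ⟨a, ha⟩ := Finset.card_pos.1 hpos
    obtain ⟨haS, hax⟩ := Finset.mem_filter.1 ha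
    have haN : a ∈ D.N (S \ R) := by
      by_contra hno
      exact hax (hipc.out a haS hno j hjK)
    exact hax (hMz j hjM a (Finset.mem_sdiff.1 haS).1
      (fun h => hNsg a haN (Finset.mem_of_mem_erase h)))
  -- blocks of K
  have hEK : ∀ j ∈ K, j ≠ k → D.E S j = D.E (S \ R) j := by
    intro j hj hjk
    ext a
    simp only [Dat.E, Finset.mem_filter, Finset.mem_sdiff]
    constructor
    · rintro ⟨haS, ha⟩
      exact ⟨⟨haS, fun haR => hjk (honly j hj a haR ha).1⟩, ha⟩
    · rintro ⟨⟨haS, _⟩, ha⟩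
      exact ⟨haS, ha⟩
  have hEk : (D.E S k).card = (D.E (S \ R) k).card + 1 := by
    have : D.E S k = insert r (D.E (S \ R) k) := by
      ext a
      simp only [Dat.E, Finset.mem_filter, Finset.mem_sdiff, Finset.mem_insert]
      constructor
      · rintro ⟨haS, ha⟩
        by_cases haR : a ∈ R
        · exact Or.inl (honly k hkK a haR ha).2
        · exact Or.inr ⟨⟨haS, haR⟩, ha⟩
      · rintro (h | ⟨⟨haS, _⟩, ha⟩)
        · rw [h]; exact ⟨hrS, by rw [hkr]; norm_num⟩
        · exact ⟨haS, ha⟩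
    rw [this, Finset.card_insert_of_notMem]
    simp [Dat.E, hrR]
  have hexcK : ∀ K'' ⊆ K, k ∈ K'' → D.exc S K'' = D.exc (S \ R) K'' + 1 := by
    intro K'' hK'' hk
    unfold Dat.exc
    rw [← Finset.add_sum_erase K'' _ hk, ← Finset.add_sum_erase K'' _ hk]
    have h1 : ∑ j ∈ K''.erase k, ((D.E S j).card - 2)
        = ∑ j ∈ K''.erase k, ((D.E (S \ R) j).card - 2) := by
      apply Finset.sum_congr rfl
      intro j hj
      rw [hEK j (hK'' (Finset.mem_of_mem_erase hj)) (Finset.ne_of_mem_erase hj)]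
    rw [h1, hEk]
    have := hipc.two k hkK
    omega
  have hexcK2 : ∀ K'' ⊆ K, k ∉ K'' → D.exc S K'' = D.exc (S \ R) K'' := by
    intro K'' hK'' hk
    unfold Dat.exc
    apply Finset.sum_congr rfl
    intro j hj
    rw [hEK j (hK'' hj) (fun h => hk (h ▸ hj))]
  have hexcM : ∀ M' ⊆ M, D.exc S M' = 0 := by
    intro M' hM'
    unfold Dat.exc
    apply Finset.sum_eq_zero
    intro j hj
    have := hMcard j (hM' hj)
    omega
  refine ⟨?_, ?_, ?_, ?_, ?_⟩
  · -- cov
    intro a ha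
    have haS : a ∈ S := (Finset.mem_filter.1 ha).1
    rcases hNsplit a ha with haN | hasg
    · obtain ⟨k0, hk0, hk0a, hk0u⟩ := hipc.cov a haN
      refine ⟨k0, Finset.mem_union_left _ hk0, hk0a, ?_⟩
      intro j hj hjk0
      rcases Finset.mem_union.1 hj with hj | hj
      · exact hk0u j hj hjk0
      · exact hMz j hj a haS (fun h => hNsg a haN (Finset.mem_of_mem_erase h))
    · by_cases har : a = r
      · subst har
        refine ⟨k, Finset.mem_union_left _ hkK, hkr, ?_⟩
        intro j hj hjk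
        rcases Finset.mem_union.1 hj with hj | hj
        · by_contra hne
          exact hjk (honly j hj a hrR hne).1
        · exact hMz j hj a haS (by simp)
      · obtain ⟨j0, ⟨hj0M, hj0a⟩, huniq⟩ := hPM.2 a (Finset.mem_erase.2 ⟨har, hasg⟩)
        refine ⟨j0, Finset.mem_union_right _ hj0M, hMone j0 hj0M a haS hj0a, ?_⟩
        intro j hj hjj0
        rcases Finset.mem_union.1 hj with hj | hj
        · by_cases haR : a ∈ R
          · by_contra hne
            exact har (honly j hj a haR hne).2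
          · exact hipc.out a (Finset.mem_sdiff.2 ⟨haS, haR⟩)
              (fun h => hNsg a h hasg) j hj
        · by_contra hne
          exact hjj0 (huniq j ⟨hj, hne⟩)
  · -- out
    intro a haS haN j hj
    rcases Finset.mem_union.1 hj with hj | hj
    · have haR : a ∉ R := fun h => haN (hsgN a (hRsg a h))
      exact hipc.out a (Finset.mem_sdiff.2 ⟨haS, haR⟩) (fun h => haN (hNsub a h)) j hj
    · exact hMz j hj a haS (fun h => haN (hsgN a (Finset.mem_of_mem_erase h)))
  · -- two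
    intro j hj
    rcases Finset.mem_union.1 hj with hj | hj
    · have h2 := hipc.two j hj
      by_cases hjk : j = k
      · subst hjk
        omega
      · rw [hEK j hj hjk]; exact h2
    · rw [hMcard j hj]
  · -- sum
    have hsum : D.exc S (K ∪ M) = D.exc S K + D.exc S M := by
      unfold Dat.exc
      rw [Finset.sum_union hdisj]
    rw [hsum, hexcM M (Finset.Subset.refl _), hexcK K (Finset.Subset.refl _) hkK]
    have := hipc.sum
    omega
  · -- irr
    intro K' hK' hK'ne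
    set K'' := K' ∩ K with hK''
    have hsplit : K' = K'' ∪ (K' ∩ M) := by
      rw [hK'', ← Finset.inter_union_distrib_left]
      exact (Finset.inter_eq_left.2 hK').symm
    have hd2 : Disjoint K'' (K' ∩ M) :=
      Finset.disjoint_of_subset_left Finset.inter_subset_right
        (Finset.disjoint_of_subset_right Finset.inter_subset_right hdisj)
    have hexc : D.exc S K' = D.exc S K'' := by
      have : D.exc S K' = D.exc S K'' + D.exc S (K' ∩ M) := by
        conv_lhs => rw [hsplit]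
        unfold Dat.exc
        rw [Finset.sum_union hd2]
      rw [this, hexcM _ Finset.inter_subset_right, add_zero]
    have hK''K : K'' ⊆ K := Finset.inter_subset_right
    -- relations supported on A
    have hA : ∀ ρ ∈ D.R (S \ D.EK S K'), ρ ∈ D.R S := fun ρ hρ => ⟨hρ.1, fun a ha => hρ.2 a (by
      simp [ha])⟩
    have hker : ∀ ρ ∈ D.R (S \ D.EK S K'), s ρ = 0 →
        ρ ∈ D.R ((S \ R) \ D.EK (S \ R) K'') := by
      intro ρ hρ hsρ
      have h1 := (hs4 ρ (hA ρ hρ)).2 hsρ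
      refine ⟨hρ.1, ?_⟩
      intro a ha
      by_cases haSR : a ∈ S \ R
      · have haE : a ∈ D.EK (S \ R) K'' := by
          by_contra hno
          exact ha (Finset.mem_sdiff.2 ⟨haSR, hno⟩)
        obtain ⟨-, j, hj, hja⟩ := Finset.mem_filter.1 haE
        apply hρ.2
        intro h
        exact (Finset.mem_sdiff.1 h).2 (Finset.mem_filter.2 ⟨(Finset.mem_sdiff.1 haSR).1, j,
          (Finset.mem_inter.1 hj).1, hja⟩)
      · exact h1.2 a haSR
    rcases Finset.eq_empty_or_nonempty K'' with hem | hnonem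
    · rw [hexc, hem]
      have h0 : D.exc S ∅ = 0 := by simp [Dat.exc]
      rw [h0, add_zero]
      obtain ⟨j, hj⟩ := hK'ne
      have hjM : j ∈ M := by
        have : j ∈ K'' ∪ (K' ∩ M) := hsplit ▸ hj
        rw [hem, Finset.empty_union] at this
        exact (Finset.mem_inter.1 this).2
      obtain ⟨y, hy, y', hy', hcl⟩ := hPM.1 j hjM
      have hyN := hsgN y (Finset.mem_of_mem_erase hy)
      obtain ⟨hyS, ρ, hρ, hρy⟩ := Finset.mem_filter.1 hyN
      apply finrank_lt_of _ _ hA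
      refine ⟨ρ, hρ, fun hmem => hρy (hmem.2 y ?_)⟩
      intro h
      exact (Finset.mem_sdiff.1 h).2 (Finset.mem_filter.2 ⟨hyS, j, hj, by
        rw [hcl.2.2.2.1]; norm_num⟩)
    · have hirr := hipc.irr K'' hK''K hnonem
      by_cases hkK' : k ∈ K'
      · have hkK'' : k ∈ K'' := Finset.mem_inter.2 ⟨hkK', hkK⟩
        have hle : D.nul (S \ D.EK S K') ≤ D.nul ((S \ R) \ D.EK (S \ R) K'') := by
          apply finrank_le_of
          intro ρ hρ
          apply hker ρ hρ
          have h0 : ρ r = 0 := by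
            apply hρ.2
            intro h
            exact (Finset.mem_sdiff.1 h).2 (Finset.mem_filter.2 ⟨hrS, k, hkK', by
              rw [hkr]; norm_num⟩)
          rw [hs1 ρ (hA ρ hρ) r hrR] at h0
          rcases mul_eq_zero.1 h0 with h | h
          · exact absurd h (hp r hrR).ne'
          · exact h
        rw [hexc, hexcK K'' hK''K hkK'']
        omega
      · have hkK'' : k ∉ K'' := fun h => hkK' (Finset.mem_inter.1 h).1
        have hle : D.nul (S \ D.EK S K') ≤ D.nul ((S \ R) \ D.EK (S \ R) K'') + 1 :=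
          finrank_le_succ _ _ s hker
        rw [hexc, hexcK2 K'' hK''K hkK'']
        omega

end Pool.Agent.KTB.H4
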